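import Mathlib
import Pool.Agent.SRC.F
import Pool.Agent.SRC.G

/-!
# Size Ramsey numbers grow polynomially in the size of the components

For every `Δ ≥ 3` and `γ, δ > 0` there is `s₀` such that for all `s ≥ s₀` and all `n` with
`(1 - 2/Δ) (log s)^2 ≤ log (Δ-1) log n` some graph `H` on `n` vertices, of maximum degree `Δ` and with
all components of size at most `s`, has the following property: the edges of every graph `G` with at
most `n s^(1-2/Δ-γ)` edges have a 2-colouring without monochromatic copy of `H`, in which all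
edges of the second colour meet a set of at most `δ n` vertices.
-/

namespace Pool.Agent.Results.MP_eed8a5_co.ComponentSize

open Pool.Agent.SRC Real

theorem result :
    ∀ Δ : ℕ, 3 ≤ Δ → ∀ γ δ : ℝ, 0 < γ → 0 < δ → ∃ s₀ : ℕ, ∀ s n : ℕ, s₀ ≤ s →
      (1 - 2 / (Δ : ℝ)) * (Real.log s) ^ 2 ≤ Real.log ((Δ : ℝ) - 1) * Real.log n →
      ∃ H : SimpleGraph (Fin n),
        (∀ v : Fin n, (H.neighborSet v).ncard ≤ Δ) ∧
        (∃ v : Fin n, (H.neighborSet v).ncard = Δ) ∧
        (∀ C : H.ConnectedComponent, C.supp.ncard ≤ s) ∧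
        ∀ (m : ℕ) (G : SimpleGraph (Fin m)),
          ((G.edgeSet.ncard : ℕ) : ℝ) ≤ (n : ℝ) * (s : ℝ) ^ (1 - 2 / (Δ : ℝ) - γ) →
          ∃ (Y : Finset (Fin m)) (c : Fin m → Fin m → Bool),
            ((Y.card : ℕ) : ℝ) ≤ δ * n ∧ (∀ x y : Fin m, c x y = c y x) ∧
            (∀ x y : Fin m, c x y = false → x ∈ Y ∨ y ∈ Y) ∧
            ¬ ∃ (f : Fin n → Fin m) (b : Bool), Function.Injective f ∧
              ∀ u v : Fin n, H.Adj u v → G.Adj (f u) (f v) ∧ c (f u) (f v) = b := by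
  classical
  intro Δ hΔ γ δ hγ hδ
  obtain ⟨b, rfl⟩ : ∃ b, Δ = b + 1 := ⟨Δ - 1, by omega⟩
  have hb : 2 ≤ b := by omega
  have hbR : (2 : ℝ) ≤ b := by exact_mod_cast hb
  set θ : ℝ := (b - 1) / (b + 1) with hθ
  have hθ' : 1 - 2 / ((b + 1 : ℕ) : ℝ) = θ := by
    rw [hθ]; push_cast; field_simp; ring
  have hθpos : 0 < θ := by rw [hθ]; apply div_pos <;> linarith
  set γ' := min γ (θ / 2) with hγ'
  set δ' := min δ (1 / (8 * (b + 1))) with hδ'
  have hγ'pos : 0 < γ' := lt_min hγ (by linarith)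
  have hδ'pos : 0 < δ' := lt_min hδ (by positivity)
  obtain ⟨s₀, hs₀⟩ := numbers b hb θ γ' δ' hθ hγ'pos (min_le_right _ _) hδ'pos
  refine ⟨s₀, fun s n hs hn => ?_⟩
  rw [hθ'] at hn
  have hb1 : ((b + 1 : ℕ) : ℝ) - 1 = b := by push_cast; ring
  rw [hb1] at hn
  obtain ⟨m, D, M, h, k, l, h2m, hbs, h2b, hD, hM, hsh, hnum, hk, hkn, hkl, hX⟩ := hs₀ s n hs hn
  obtain ⟨H, H1, H2, H3, H4, H5⟩ := exists_H hb h2m hbs h2b hD hM hsh hnum hk hkn
  refine ⟨H, H1, H2, H3, fun N G hG => ?_⟩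
  rw [hθ'] at hG
  obtain ⟨Y, hY1, hY2⟩ := H5 N G
  have hspos : (1 : ℝ) ≤ s := by exact_mod_cast (show 1 ≤ s by omega)
  have hsn : s ≤ n := le_trans (by nlinarith) hkn
  have hnR : (0 : ℝ) < n := by exact_mod_cast (show 0 < n by omega)
  have hl : (0 : ℝ) < l := by
    have : 0 < l := by
      rcases Nat.eq_zero_or_pos l with h0 | h0
      · rw [h0] at hkl; omega
      · exact h0
    exact_mod_cast this
  -- size of Y
  have hYcard : (Y.card : ℝ) ≤ δ' * n := by
    have hD1 : (0 : ℝ) < (D : ℝ) + 1 := by positivity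
    have hkR : (k : ℝ) = ((D : ℝ) + 1) * l := by rw [hkl]; push_cast; ring
    have h1 : 2 * (G.edgeSet.ncard : ℝ) * l / k = 2 * (G.edgeSet.ncard : ℝ) / (D + 1) := by
      rw [hkR]; field_simp
    rw [h1] at hY1
    have h2 : (G.edgeSet.ncard : ℝ) ≤ n * (s : ℝ) ^ (θ - γ') := by
      refine hG.trans ?_
      have hmin : γ' ≤ γ := min_le_left _ _
      gcongr
    have h3 : 2 * (G.edgeSet.ncard : ℝ) / (D + 1) ≤ δ' * n / 2 := by
      rw [div_le_iff₀ hD1]
      have h4 : 4 * (s : ℝ) ^ (θ - γ') ≤ δ' * (D + 1) := by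
        have := mul_le_mul_of_nonneg_left hX hδ'pos.le
        calc 4 * (s : ℝ) ^ (θ - γ') = δ' * (4 / δ' * (s : ℝ) ^ (θ - γ')) := by
              field_simp
          _ ≤ _ := this
      have h5 : n * (4 * (s : ℝ) ^ (θ - γ')) ≤ n * (δ' * (D + 1)) :=
        mul_le_mul_of_nonneg_left h4 hnR.le
      linarith
    linarith
  refine ⟨Y, fun x y => decide (x ∉ Y ∧ y ∉ Y), ?_, ?_, ?_, ?_⟩
  · exact hYcard.trans (mul_le_mul_of_nonneg_right (min_le_left _ _) hnR.le)
  · intro x y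
    simp [and_comm]
  · intro x y hxy
    by_contra hcon
    push Not at hcon
    simp [hcon.1, hcon.2] at hxy
  · rintro ⟨f, col, hf, hmono⟩
    cases col with
    | true =>
      obtain ⟨u, w, huw, hu⟩ := hY2 f hf (fun u v huv => (hmono u v huv).1)
      have h1 := (hmono u w huw).2
      simp [hu] at h1
    | false =>
      have h1 : ∀ u v, H.Adj u v → f u ∈ Y ∨ f v ∈ Y := by
        intro u v huv
        have h2 := (hmono u v huv).2
        by_contra hcon
        push Not at hcon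
        simp [hcon.1, hcon.2] at h2
      have h2 := H4 N f hf Y h1
      have h3 : (((n / s : ℕ) : ℝ)) * ((s : ℝ) - 1) ≤ Y.card * (b + 1) := by
        have : (((n / s) * (s - 1) : ℕ) : ℝ) ≤ ((Y.card * (b + 1) : ℕ) : ℝ) := by
          exact_mod_cast h2
        push_cast at this
        rw [Nat.cast_sub (by omega)] at this
        simpa using this
      have h4 : (n : ℝ) / 2 ≤ ((n / s : ℕ) : ℝ) * s := by
        have e1 : n < (n / s + 1) * s := by
          have := Nat.lt_div_mul_add (a := n) (b := s) (by omega)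
          nlinarith
        have e2 : 1 ≤ n / s := (Nat.one_le_div_iff (by omega)).mpr hsn
        have e3 : (n : ℝ) ≤ (((n / s : ℕ) : ℝ) + 1) * s := by exact_mod_cast e1.le
        have e4 : (1 : ℝ) ≤ ((n / s : ℕ) : ℝ) := by exact_mod_cast e2
        nlinarith
      have h5 : ((b : ℝ) + 1) * Y.card ≤ n / 8 := by
        have e1 : (Y.card : ℝ) ≤ 1 / (8 * (b + 1)) * n :=
          hYcard.trans (mul_le_mul_of_nonneg_right (min_le_right _ _) hnR.le)
        calc ((b : ℝ) + 1) * Y.card ≤ (b + 1) * (1 / (8 * (b + 1)) * n) := by gcongr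
          _ = n / 8 := by field_simp
      have h6 : (2 : ℝ) ≤ s := by exact_mod_cast (show 2 ≤ s by omega)
      have h7 : (0 : ℝ) ≤ ((n / s : ℕ) : ℝ) := by positivity
      nlinarith

end Pool.Agent.Results.MP_eed8a5_co.ComponentSize
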